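import Pool.Agent.Helper15.BB.St

/-!
Project BB (MP_434a84_lc), module S.
-/

set_option autoImplicit false

namespace Pool.Agent.Helper17.BB

open Pool.Agent.Helper22.FL Pool.Agent.Helper22.CS Pool.Agent.Helper15.BB

/-- multiplicity of a letter in a pattern -/
private def mu {n m : ℕ} (b : Fin m → Fin n) (a : Fin n) : ℕ :=
  (Finset.univ.filter fun u => b u = a).card

private theorem mu_sum {n m : ℕ} (b : Fin m → Fin n) : ∑ a : Fin n, mu b a = m := by
  have h := Finset.card_eq_sum_card_fiberwise (f := b) (s := (Finset.univ : Finset (Fin m)))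
    (t := (Finset.univ : Finset (Fin n))) (fun x _ => Finset.mem_coe.2 (Finset.mem_univ _))
  rw [Finset.card_univ, Fintype.card_fin] at h
  exact h.symm

private theorem single {n m : ℕ} (b : Fin m → Fin n) (s : Fin m) (h : mu b (b s) = 1) :
    ∀ u, b u = b s ↔ u = s := by
  intro u
  constructor
  · intro hu
    obtain ⟨c, hc⟩ := Finset.card_eq_one.1 h
    have h1 : u ∈ Finset.univ.filter fun v => b v = b s := by simp [hu]
    have h2 : s ∈ Finset.univ.filter fun v => b v = b s := by simp
    rw [hc, Finset.mem_singleton] at h1 h2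
    rw [h1, h2]
  · rintro rfl; rfl

private theorem double {n m : ℕ} (b : Fin m → Fin n) (a : Fin n) (h : mu b a = 2) :
    ∃ t1 t2 : Fin m, t1 < t2 ∧ ∀ u, b u = a ↔ (u = t1 ∨ u = t2) := by
  obtain ⟨x, y, hxy, hc⟩ := Finset.card_eq_two.1 h
  have key : ∀ u, b u = a ↔ (u = x ∨ u = y) := by
    intro u
    have : u ∈ (Finset.univ.filter fun v => b v = a) ↔ u ∈ ({x, y} : Finset (Fin m)) := by
      rw [hc]
    simpa using this
  rcases lt_or_gt_of_ne hxy with h1 | h1
  · exact ⟨x, y, h1, key⟩
  · exact ⟨y, x, h1, fun u => by rw [key u]; exact or_comm⟩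

theorem sts (hA : StA) (hD : StD) : StS := by
  intro n m b hn hm
  by_cases h0 : ∃ a, ∀ u, b u ≠ a
  · exact Or.inl h0
  right
  push Not at h0
  have hpos : ∀ a, 1 ≤ mu b a := by
    intro a
    obtain ⟨u, hu⟩ := h0 a
    exact Finset.card_pos.2 ⟨u, by simp [hu]⟩
  have hsum := mu_sum b
  set Sg : Finset (Fin n) := Finset.univ.filter fun a => mu b a = 1 with hSg
  set P : Finset (Fin m) := Finset.univ.filter fun u => mu b (b u) = 1 with hP
  have hPS : P.card = Sg.card := by
    apply Finset.card_bij (fun u _ => b u)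
    · intro u hu
      simpa [hSg, hP] using hu
    · intro u hu v hv huv
      have h1 : mu b (b v) = 1 := by simpa [hP] using hv
      exact (single b v h1 u).1 huv
    · intro a ha
      obtain ⟨u, hu⟩ := h0 a
      refine ⟨u, ?_, hu⟩
      have h1 : mu b a = 1 := by simpa [hSg] using ha
      simpa [hP, hu] using h1
  have hlow : ∀ a, 2 - (if mu b a = 1 then 1 else 0) ≤ mu b a := by
    intro a
    have := hpos a
    split_ifs with h
    · omega
    · omega
  have hcardS : ∑ a : Fin n, (if mu b a = 1 then 1 else 0) = Sg.card := by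
    rw [hSg, Finset.card_filter]
  have hge : 2 * n ≤ m + Sg.card := by
    have h1 : ∑ a : Fin n, 2 ≤ ∑ a : Fin n, (mu b a + (if mu b a = 1 then 1 else 0)) := by
      apply Finset.sum_le_sum
      intro a _
      have := hlow a
      omega
    rw [Finset.sum_add_distrib, hsum, hcardS] at h1
    simp at h1
    omega
  have h3 : 3 ≤ Sg.card := by omega
  have hPmem : ∀ u ∈ P, ∀ v, b v = b u ↔ v = u := by
    intro u hu
    exact single b u (by simpa [hP] using hu)
  by_cases h4 : 4 ≤ Sg.card
  · -- four single letters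
    set e := P.orderEmbOfFin rfl with he
    have hc : 4 ≤ P.card := by omega
    obtain ⟨i0, i1, i2, i3⟩ : ∃ _ : 0 < P.card, ∃ _ : 1 < P.card, ∃ _ : 2 < P.card, 3 < P.card :=
      ⟨by omega, by omega, by omega, by omega⟩
    have m1 := hPmem (e ⟨0, by omega⟩) (Finset.orderEmbOfFin_mem P rfl _)
    have m2 := hPmem (e ⟨1, by omega⟩) (Finset.orderEmbOfFin_mem P rfl _)
    have m3 := hPmem (e ⟨2, by omega⟩) (Finset.orderEmbOfFin_mem P rfl _)
    have m4 := hPmem (e ⟨3, by omega⟩) (Finset.orderEmbOfFin_mem P rfl _)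
    have l12 : e ⟨0, by omega⟩ < e ⟨1, by omega⟩ := e.strictMono (by simp)
    have l23 : e ⟨1, by omega⟩ < e ⟨2, by omega⟩ := e.strictMono (by simp)
    have l34 : e ⟨2, by omega⟩ < e ⟨3, by omega⟩ := e.strictMono (by simp)
    generalize e ⟨0, by omega⟩ = s1 at m1 l12
    generalize e ⟨1, by omega⟩ = s2 at m2 l12 l23
    generalize e ⟨2, by omega⟩ = s3 at m3 l23 l34
    generalize e ⟨3, by omega⟩ = s4 at m4 l34
    have hdist : Dist (b s1) (b s2) (b s3) (b s4) := by
      refine ⟨?_, ?_, ?_, ?_, ?_, ?_⟩
      · intro h; have := (m2 s1).1 h; omega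
      · intro h; have := (m3 s1).1 h; omega
      · intro h; have := (m4 s1).1 h; omega
      · intro h; have := (m3 s2).1 h; omega
      · intro h; have := (m4 s2).1 h; omega
      · intro h; have := (m4 s3).1 h; omega
    refine ⟨b s1, b s2, b s3, b s4, hdist, ?_⟩
    apply hA n m b (b s1) (b s2) (b s3) (b s4) s1 s2 hdist m1 m2 l12
    intro u hu1 hu2
    constructor
    · intro h; have := (m3 u).1 h; omega
    · intro h; have := (m4 u).1 h; omega
  · -- exactly three single letters
    have h3' : Sg.card = 3 := by omega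
    have htwo : ∀ a, mu b a ≠ 1 → mu b a = 2 := by
      intro a ha
      by_contra h2
      have h5 : 3 ≤ mu b a := by have := hpos a; omega
      have h1 : ∑ c : Fin n, (2 + (if c = a then 1 else 0)) ≤
          ∑ c : Fin n, (mu b c + (if mu b c = 1 then 1 else 0)) := by
        apply Finset.sum_le_sum
        intro c _
        have h6 := hlow c
        by_cases hca : c = a
        · subst hca
          rw [if_pos rfl]
          omega
        · rw [if_neg hca]
          omega
      rw [Finset.sum_add_distrib, Finset.sum_add_distrib, hsum, hcardS] at h1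
      simp at h1
      omega
    obtain ⟨a, ha⟩ : ∃ a, mu b a ≠ 1 := by
      by_contra hcon
      push Not at hcon
      have : Sg = Finset.univ := by
        rw [hSg]
        apply Finset.filter_true_of_mem
        intro x _
        exact hcon x
      rw [this, Finset.card_univ, Fintype.card_fin] at h3'
      omega
    obtain ⟨t1, t2, ht, hta⟩ := double b a (htwo a ha)
    set e := P.orderEmbOfFin rfl with he
    have hc : P.card = 3 := by omega
    have n1 := Finset.orderEmbOfFin_mem P rfl ⟨0, by omega⟩
    have n2 := Finset.orderEmbOfFin_mem P rfl ⟨1, by omega⟩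
    have n3 := Finset.orderEmbOfFin_mem P rfl ⟨2, by omega⟩
    rw [← he] at n1 n2 n3
    have l12 : e ⟨0, by omega⟩ < e ⟨1, by omega⟩ := e.strictMono (by simp)
    have l23 : e ⟨1, by omega⟩ < e ⟨2, by omega⟩ := e.strictMono (by simp)
    generalize e ⟨0, by omega⟩ = s1 at n1 l12
    generalize e ⟨1, by omega⟩ = s2 at n2 l12 l23
    generalize e ⟨2, by omega⟩ = s3 at n3 l23
    have m1 := hPmem s1 n1
    have m2 := hPmem s2 n2
    have m3 := hPmem s3 n3
    have hne : ∀ s ∈ P, a ≠ b s := by
      intro s hs h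
      apply ha
      rw [h]
      simpa [hP] using hs
    have a1 := hne s1 n1
    have a2 := hne s2 n2
    have a3 := hne s3 n3
    have d12 : b s1 ≠ b s2 := by intro h; have := (m2 s1).1 h; omega
    have d13 : b s1 ≠ b s3 := by intro h; have := (m3 s1).1 h; omega
    have d23 : b s2 ≠ b s3 := by intro h; have := (m3 s2).1 h; omega
    by_cases c1 : (s1 < t1 ∧ t1 < s2) ∨ (s1 < t2 ∧ t2 < s2)
    · by_cases c2 : (s2 < t1 ∧ t1 < s3) ∨ (s2 < t2 ∧ t2 < s3)
      · have o1 : s1 < t1 ∧ t1 < s2 ∧ s2 < t2 ∧ t2 < s3 := by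
          rcases c1 with c1 | c1 <;> rcases c2 with c2 | c2 <;> omega
        have hdist : Dist (b s1) (b s3) a (b s2) := ⟨d13, a1.symm, d12, a3.symm, d23.symm, a2⟩
        refine ⟨b s1, b s3, a, b s2, hdist, ?_⟩
        apply hD n m b (b s1) (b s3) a (b s2) s1 s3 hdist m1 m3
        intro u hu
        rcases hu with hu | hu
        · rcases (hta u).1 hu with rfl | rfl <;> omega
        · have := (m2 u).1 hu
          subst this
          omega
      · have hdist : Dist (b s2) (b s3) a (b s1) :=
          ⟨d23, a2.symm, d12.symm, a3.symm, d13.symm, a1⟩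
        refine ⟨b s2, b s3, a, b s1, hdist, ?_⟩
        apply hA n m b (b s2) (b s3) a (b s1) s2 s3 hdist m2 m3 l23
        intro u hu1 hu2
        constructor
        · intro hu
          rcases (hta u).1 hu with rfl | rfl
          · exact c2 (Or.inl ⟨hu1, hu2⟩)
          · exact c2 (Or.inr ⟨hu1, hu2⟩)
        · intro hu
          have := (m1 u).1 hu
          omega
    · have hdist : Dist (b s1) (b s2) a (b s3) := ⟨d12, a1.symm, d13, a2.symm, d23, a3⟩
      refine ⟨b s1, b s2, a, b s3, hdist, ?_⟩
      apply hA n m b (b s1) (b s2) a (b s3) s1 s2 hdist m1 m2 l12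
      intro u hu1 hu2
      constructor
      · intro hu
        rcases (hta u).1 hu with rfl | rfl
        · exact c1 (Or.inl ⟨hu1, hu2⟩)
        · exact c1 (Or.inr ⟨hu1, hu2⟩)
      · intro hu
        have := (m3 u).1 hu
        omega

end Pool.Agent.Helper17.BB
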